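import Pool.Agent.H574R3.CS.Stmts

/-! Task Even0 (helper427). -/

set_option autoImplicit false

namespace Pool.Agent.H574R3.CS

theorem taskEven0 : TaskEven0 := by
  intro hS K _ _ a n h2 hn hq1 hq2 hq3 hm
  have hx : cub a (e3 : Fin 4 → K) = 0 := by
    rw [hn.1 K e3]
    simp [e3, NF.F, hq1, hq2, hq3]
  have hchar : ringChar K = 2 := by
    refine CharP.ringChar_of_prime_eq_zero Nat.prime_two ?_
    exact_mod_cast h2
  -- the base point
  obtain ⟨X0, Y0, h0⟩ : ∃ X0 Y0 : K, n.m1 * X0 + n.m2 * Y0 + n.m3 = 0 := by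
    by_cases h1 : n.m1 = 0
    · by_cases h3 : n.m2 = 0
      · refine ⟨0, 0, ?_⟩
        have : n.m3 = 0 := by
          by_contra h
          exact hm ⟨h1, h3, h⟩
        rw [this]; ring
      · refine ⟨0, -n.m3 / n.m2, ?_⟩
        field_simp
        ring
    · refine ⟨-n.m3 / n.m1, 0, ?_⟩
      field_simp
      ring
  obtain ⟨W0, hW⟩ : IsSquare (-(n.a * X0 ^ 3 + n.b * (X0 ^ 2 * Y0) + n.c * (X0 * Y0 ^ 2) +
      n.d * Y0 ^ 3 + (n.h1 * X0 ^ 2 + n.h2 * (X0 * Y0) + n.h3 * Y0 ^ 2) +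
      (n.l1 * X0 + n.l2 * Y0) + n.k)) := FiniteField.isSquare_of_char_two hchar _
  refine hS K a e3 ![X0, Y0, 1, W0] hx ?_ ?_ ?_
  · rw [hn.1 K]
    simp only [NF.F, hq1, hq2, hq3, Algebra.algebraMap_self, RingHom.id_apply, Matrix.cons_val_zero,
      Matrix.cons_val_one, Matrix.cons_val]
    linear_combination (-1 : K) * hW + W0 * h0
  · rw [hn.2 K]
    simp only [NF.DF, hq1, hq2, hq3, Algebra.algebraMap_self, RingHom.id_apply,
      Matrix.cons_val_zero, Matrix.cons_val_one, Matrix.cons_val, e3]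
    linear_combination W0 * h2 + h0
  · rw [LinearIndependent.pair_iff]
    intro s t hst
    have e2 := congrFun hst 2
    have e4 := congrFun hst 3
    simp [e3] at e2 e4
    subst e2
    simp at e4
    exact ⟨e4, rfl⟩

end Pool.Agent.H574R3.CS
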